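import Mathlib

open Finset MeasureTheory

namespace Pool.Agent.Results.MP_a8acf3_co.Personal

section
variable {α ι : Type} [DecidableEq α] [DecidableEq ι]

lemma best (w : ι → ℝ) (hw : ∀ j, 0 ≤ w j) (k K : ℕ) (h : k ≤ K) : ∀ D : Finset ι, #D ≤ K →
    ∃ T ⊆ D, #T ≤ k ∧ k * ∑ j ∈ D, w j ≤ K * ∑ j ∈ T, w j := by
  induction K, h using Nat.le_induction with
  | base => exact fun D h => ⟨D, subset_rfl, h, le_rfl⟩
  | succ K h ih =>
    intro D hD
    have s0 : ∀ T : Finset ι, 0 ≤ ∑ j ∈ T, w j := fun T => sum_nonneg fun j _ => hw j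
    rcases hD.eq_or_lt with e | e
    · obtain ⟨j, p, q⟩ := D.exists_min_image w (card_pos.1 (by omega))
      obtain ⟨T, a, b, c⟩ := ih (D.erase j) (by rw [card_erase_of_mem p]; omega)
      refine ⟨T, a.trans (erase_subset _ _), b, ?_⟩
      have u := card_nsmul_le_sum D w _ q
      rw [e, nsmul_eq_mul, ← add_sum_erase _ _ p] at u
      rw [← add_sum_erase _ _ p]
      rcases Nat.eq_zero_or_pos K with z | z
      · simpa [z, show k = 0 by omega] using s0 T
      · refine le_of_mul_le_mul_left ?_ (show (0 : ℝ) < K by exact_mod_cast z)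
        push_cast at u ⊢
        nlinarith [mul_le_mul_of_nonneg_left u (Nat.cast_nonneg k : (0 : ℝ) ≤ k),
          mul_le_mul_of_nonneg_left c (by positivity : (0 : ℝ) ≤ K + 1)]
    · obtain ⟨T, a, b, c⟩ := ih D (by omega)
      exact ⟨T, a, b, by push_cast; linarith [s0 T]⟩

lemma grp (z : α → ℕ) (A : Finset α) : ∀ s : Finset ι, ∑ a ∈ A, z a ≤ #s →
    ∃ G : α → Finset ι, (∀ a ∈ A, G a ⊆ s ∧ #(G a) = z a) ∧ (A : Set α).PairwiseDisjoint G := by
  induction A using Finset.induction_on with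
  | empty => exact fun _ _ => ⟨fun _ => ∅, by simp, by simp⟩
  | insert a A ha ih =>
    intro s h
    rw [sum_insert ha] at h
    obtain ⟨T, p, q⟩ := exists_subset_card_eq (s := s) (n := z a) (by omega)
    obtain ⟨G, u, v⟩ := ih (s \ T) (by rw [card_sdiff_of_subset p]; omega)
    have e : ∀ b ∈ A, Function.update G a T b = G b := fun b r => Function.update_of_ne (by rintro rfl; exact ha r) _ _
    refine ⟨Function.update G a T, ?_, ?_⟩
    · simp only [forall_mem_insert, Function.update_self]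
      exact ⟨⟨p, q⟩, fun b r => by rw [e b r]; exact ⟨(u b r).1.trans sdiff_subset, (u b r).2⟩⟩
    · rw [coe_insert]
      refine .insert (fun b r c s h => ?_) fun b r _ => ?_
      · simpa only [Function.onFun, e b r, e c s] using v r s h
      · rw [e b r, Function.update_self]
        exact disjoint_sdiff.mono_right (u b r).1

lemma efm (A : Finset α) (hA : A.Nonempty) (R : α → α → Prop) (h : ∀ y ∈ A, ∃ x ∈ A, R x y) :
    ∃ X ⊆ A, X.Nonempty ∧ ∃ φ : α → α, Set.InjOn φ X ∧ (∀ x ∈ X, φ x ∈ A ∧ R x (φ x)) ∧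
      ∀ x ∈ A \ X, ∀ y ∈ X, ¬ R x (φ y) := by
  classical
  let N : α → Finset α := fun y => A.filter (R · y)
  obtain ⟨Y, p, q⟩ := (A.powerset.filter fun Y => Y.Nonempty ∧ #(Y.biUnion N) ≤ #Y).exists_min_image card
    ⟨A, by simpa [hA] using card_le_card (biUnion_subset.2 fun _ _ => filter_subset _ _)⟩
  simp only [mem_filter, mem_powerset, and_imp] at p q
  obtain ⟨p1, p2, p3⟩ := p
  have H : ∀ Z ⊆ Y, #Z ≤ #(Z.biUnion N) := fun Z r => by
    rcases Z.eq_empty_or_nonempty with rfl | ⟨y, e⟩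
    · simp
    have m := card_le_card (biUnion_subset_biUnion_of_subset_left N (erase_subset y Z))
    have := card_le_card r
    have := card_erase_add_one e
    rcases (Z.erase y).eq_empty_or_nonempty with d | d
    · obtain ⟨x, a, b⟩ := h y (p1 (r e))
      have : 0 < #(Z.biUnion N) := card_pos.2 ⟨x, mem_biUnion.2 ⟨y, e, mem_filter.2 ⟨a, b⟩⟩⟩
      have := card_eq_zero.2 d
      omega
    · have := mt (q _ ((erase_subset _ _).trans (r.trans p1)) d) (by omega)
      omega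
  obtain ⟨ψ, a, b⟩ := (all_card_le_biUnion_card_iff_exists_injective fun y : Y => N y).1 fun Z => by
    have := H (Z.map (.subtype _)) fun y => by simp +contextual
    rwa [card_map, map_eq_image, image_biUnion] at this
  have e : univ.image ψ = Y.biUnion N := eq_of_subset_of_card_le
    (fun x => by simp only [mem_image, mem_biUnion]; rintro ⟨y, -, rfl⟩; exact ⟨y, y.2, b y⟩)
    (by rwa [card_image_of_injective _ a, card_univ, Fintype.card_coe])
  have := p2.to_subtype
  have i := Function.leftInverse_invFun a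
  refine ⟨univ.image ψ, e ▸ biUnion_subset.2 fun _ _ => filter_subset _ _, univ_nonempty.image _,
    fun x => (Function.invFun ψ x).1, ?_, ?_, fun x r => ?_⟩
  · simp only [coe_image, Set.InjOn, Set.forall_mem_image, i _]
    exact fun _ _ _ _ h => congrArg _ (Subtype.ext h)
  · simp only [forall_mem_image, i _]
    exact fun y _ => ⟨p1 y.2, (mem_filter.1 (b y)).2⟩
  · simp only [forall_mem_image, i _]
    exact fun y _ c => (mem_sdiff.1 r).2 (e ▸ mem_biUnion.2 ⟨y, y.2, mem_filter.2 ⟨(mem_sdiff.1 r).1, c⟩⟩)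

lemma thr {s B A : Finset ι} {K : ℕ} (P : Finset ι → Prop) (hP : ∀ B C, B ⊆ C → P C → P B) (hB : B ⊆ s)
    (b : #B + 1 = K) (pb : P B) (hA : A ⊆ s) (a : #A ≤ K) (pa : ¬ P A) :
    ∃ B ⊆ s, #B + 1 = K ∧ P B ∧ ∃ j ∈ s, j ∉ B ∧ ¬ P (insert j B) := by
  classical
  obtain ⟨C, p, q⟩ := (s.powerset.filter fun B => #B + 1 = K ∧ P B).exists_max_image (fun B => #(B ∩ A))
    ⟨B, by simp [*]⟩
  simp only [mem_filter, mem_powerset, and_imp] at p q
  obtain ⟨p1, p2, p3⟩ := p
  refine ⟨C, p1, p2, p3, ?_⟩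
  obtain ⟨j, u, v⟩ := not_subset.1 fun h => pa (hP _ _ h p3)
  refine ⟨j, hA u, v, fun w => ?_⟩
  by_cases c : C ⊆ A
  · exact pa (eq_of_subset_of_card_le (insert_subset u c) (by rw [card_insert_of_notMem v]; omega) ▸ w)
  obtain ⟨e, x, y⟩ := not_subset.1 c
  have := q (insert j (C.erase e)) (insert_subset (hA u) ((erase_subset _ _).trans p1))
    (by rw [card_insert_of_notMem (by simp [v]), card_erase_add_one x, p2])
    (hP _ _ (insert_subset_insert _ (erase_subset _ _)) w)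
  rw [insert_inter_of_mem u, card_insert_of_notMem (by simp [v]), erase_inter, erase_eq_of_notMem (by simp [y])] at this
  omega
def Pc (I : ι → Set ℝ) (s : Finset ι) (k : ℕ) (Z : Set ℝ) : Prop :=
  ∃ S : Finset (Set ℝ), #S ≤ k ∧ (∀ J ∈ S, J.OrdConnected ∧ (J = ∅ ∨ ∃ j ∈ s, J ⊆ I j)) ∧ Z = ⋃ J ∈ S, J

omit [DecidableEq ι] in
lemma Pc.mono {I I' : ι → Set ℝ} {s s' : Finset ι} {k : ℕ} {Z : Set ℝ} (h : Pc I' s' k Z)
    (H : ∀ j ∈ s', I' j = ∅ ∨ j ∈ s ∧ I' j ⊆ I j) : Pc I s k Z := by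
  obtain ⟨S, a, b, c⟩ := h
  refine ⟨S, a, fun J p => ⟨(b J p).1, ?_⟩, c⟩
  obtain q | ⟨j, q, r⟩ := (b J p).2
  · exact .inl q
  · obtain e | e := H j q
    exacts [.inl (Set.subset_eq_empty r e), .inr ⟨j, e.1, r.trans e.2⟩]

omit [DecidableEq ι] in
lemma Pc.sub {I : ι → Set ℝ} {s : Finset ι} {k : ℕ} {Z : Set ℝ} (h : Pc I s k Z) : Z ⊆ ⋃ j ∈ s, I j := by
  obtain ⟨S, -, b, rfl⟩ := h
  refine Set.iUnion₂_subset fun J p => ?_
  obtain q | ⟨j, q, r⟩ := (b J p).2
  exacts [by simp [q], Set.subset_iUnion₂_of_subset j q r]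

def Iv (I : ι → Set ℝ) : Prop := ∀ j, ∃ u w, u ≤ w ∧ I j = Set.Ioc u w

lemma give {f : ℝ → ℝ} (hf : Integrable f) (f0 : ∀ x, 0 ≤ f x) {I : ι → Set ℝ} (hI : Iv I) {D : Finset ι}
    (d : (D : Set ι).PairwiseDisjoint I) {k K : ℕ} (hk : 1 ≤ k) (hK : 1 ≤ K) (c : #D ≤ K) {t : ℝ}
    (h : t * K / min k K ≤ ∑ j ∈ D, ∫ x in I j, f x) : ∃ Z, Pc I D k Z ∧ t ≤ ∫ x in Z, f x := by
  classical
  obtain ⟨T, a, b, e⟩ := best (fun j => ∫ x in I j, f x) (fun _ => integral_nonneg f0) _ K (min_le_right k K) D c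
  refine ⟨⋃ j ∈ T, I j, ⟨T.image I, card_image_le.trans (b.trans (min_le_left _ _)), ?_, by simp⟩, ?_⟩
  · simp only [forall_mem_image]
    exact fun j p => ⟨by obtain ⟨u, w, -, e⟩ := hI j; rw [e]; infer_instance, .inr ⟨j, a p, subset_rfl⟩⟩
  · rw [integral_biUnion_finset T (fun j _ => by obtain ⟨u, w, -, e⟩ := hI j; rw [e]; measurability)
      (d.subset a) fun _ _ => hf.integrableOn]
    rw [div_le_iff₀ (by exact_mod_cast lt_min hk hK)] at h
    exact le_of_mul_le_mul_left (by push_cast at *; linarith) (show (0 : ℝ) < K by exact_mod_cast hK)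

def Ok (f : α → ℝ → ℝ) (k : α → ℕ) (t : α → ℝ) (A : Finset α) (s : Finset ι) (I : ι → Set ℝ) : Prop :=
  Iv I → (s : Set ι).PairwiseDisjoint I → (∀ i ∈ A, #A * t i ≤ ∑ j ∈ s, ∫ x in I j, f i x ∧
    (#s + #A - 1) * t i ≤ k i * ∑ j ∈ s, ∫ x in I j, f i x) →
  ∃ Z : α → Set ℝ, (A : Set α).PairwiseDisjoint Z ∧ ∀ i ∈ A, Pc I s (k i) (Z i) ∧ t i ≤ ∫ x in Z i, f i x

variable {f : α → ℝ → ℝ} (hf : ∀ i, Integrable (f i)) (f0 : ∀ i x, 0 ≤ f i x) {k : α → ℕ} (hk : ∀ i, 1 ≤ k i)
  {t : α → ℝ} (ht : ∀ i, 0 ≤ t i)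
include hf f0 hk ht

lemma step {A : Finset α} (ih : ∀ B ⊂ A, ∀ (s : Finset ι) I, Ok f k t B s I) (s : Finset ι) (I : ι → Set ℝ)
    {i0 : α} (h0 : i0 ∈ A) (k0 : #A * k i0 + 1 ≤ #s + #A) : Ok f k t A s I := by
  classical
  intro hI hd H
  have n0 : 0 < #A := card_pos.2 ⟨_, h0⟩
  obtain ⟨K, r, hr, e⟩ : ∃ K r, r < #A ∧ #s + #A = #A * K + r + 1 :=
    ⟨(#s + #A - 1) / #A, _, Nat.mod_lt (#s + #A - 1) n0, by rw [Nat.div_add_mod]; omega⟩
  have kK : k i0 ≤ K := by
    by_contra! h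
    nlinarith [Nat.mul_le_mul_left #A h]
  have K1 := (hk i0).trans kK
  let θ : α → ℝ := fun i => t i * K / min (k i) K
  have w0 : ∀ i (J : Set ℝ), 0 ≤ ∫ x in J, f i x := fun i _ => integral_nonneg (f0 i)
  have fin : ∀ X ⊆ A, X.Nonempty → ∀ (Z : α → Set ℝ) (s' : Finset ι) (I' : ι → Set ℝ) (q : ℕ), Iv I' → s' ⊆ s →
      (∀ j, I' j ⊆ I j) → (X : Set α).PairwiseDisjoint Z →
      (∀ i ∈ X, Pc I s (k i) (Z i) ∧ t i ≤ ∫ x in Z i, f i x) → (∀ i ∈ X, ∀ j ∈ s', Disjoint (Z i) (I' j)) →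
      #s' + #X * K + q = #s + #X → q ≤ r → r + #X ≤ #A + q →
      (∀ i ∈ A \ X, ∑ j ∈ s, ∫ x in I j, f i x ≤ (∑ j ∈ s', ∫ x in I' j, f i x) + #X * θ i) →
      ∃ Z : α → Set ℝ, (A : Set α).PairwiseDisjoint Z ∧ ∀ i ∈ A, Pc I s (k i) (Z i) ∧ t i ≤ ∫ x in Z i, f i x := by
    intro X hX hn Z s' I' q a b c d g h e1 e2 e3 l
    obtain ⟨n, e4⟩ : ∃ n, #A = n + #X := ⟨_, (card_sdiff_add_card_eq_card hX).symm⟩
    have e5 : #(A \ X) = n := by have := card_sdiff_add_card_eq_card hX; omega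
    obtain ⟨Y, u, v⟩ := ih (A \ X) (sdiff_ssubset hX hn) s' I' a
      (fun i p j p' h => (hd (b p) (b p') h).mono (c i) (c j)) fun i p => by
        obtain ⟨x, y⟩ := H i (mem_sdiff.1 p).1
        have l := l i p
        have T := ht i
        obtain ⟨r, rfl⟩ := Nat.exists_eq_add_of_le e2
        have f1 : (#s' + n - 1 : ℝ) = n * K + r := by
          have : #s' + n = n * K + r + 1 := by rw [e4] at e; nlinarith
          have := congrArg (Nat.cast : ℕ → ℝ) this
          push_cast at this; linarith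
        have f2 : (#s + #A - 1 : ℝ) = (n + #X) * K + q + r := by
          have := congrArg (Nat.cast : ℕ → ℝ) e
          rw [e4] at this ⊢
          push_cast at this ⊢; linarith
        have f3 : (r : ℝ) ≤ n := by exact_mod_cast (by omega : r ≤ n)
        rw [e5, f1]
        rw [f2] at y
        rw [e4] at x
        push_cast at x
        have V0 : 0 ≤ ∑ j ∈ s', ∫ x in I' j, f i x := sum_nonneg fun _ _ => w0 _ _
        generalize ∑ j ∈ s', ∫ x in I' j, f i x = V' at *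
        generalize ∑ j ∈ s, ∫ x in I j, f i x = V at *
        have k1 : (1 : ℝ) ≤ k i := by exact_mod_cast hk i
        rcases le_or_gt (k i) K with z | z
        · have z' : (k i : ℝ) ≤ K := by exact_mod_cast z
          have : k i * θ i = t i * K := by simp only [θ, min_eq_left z]; field_simp
          have m : (n * K + r) * t i ≤ k i * V' := by
            nlinarith [mul_le_mul_of_nonneg_left l (zero_le_one.trans k1), mul_nonneg (Nat.cast_nonneg q : (0 : ℝ) ≤ q) T,
              congrArg ((#X : ℝ) * ·) this]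
          refine ⟨le_of_mul_le_mul_left ?_ (zero_lt_one.trans_le k1), m⟩
          nlinarith [mul_nonneg (Nat.cast_nonneg r : (0 : ℝ) ≤ r) T,
            mul_le_mul_of_nonneg_left z' (mul_nonneg (Nat.cast_nonneg n : (0 : ℝ) ≤ n) T)]
        · have z' : (K : ℝ) + 1 ≤ k i := by exact_mod_cast z
          have : θ i = t i := by simp only [θ, min_eq_right z.le]; field_simp
          rw [this] at l
          have m : n * t i ≤ V' := by linarith
          exact ⟨m, by nlinarith [mul_le_mul_of_nonneg_right z' V0, mul_le_mul_of_nonneg_right f3 T,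
            mul_le_mul_of_nonneg_left m (Nat.cast_nonneg K : (0 : ℝ) ≤ K)]⟩
    refine ⟨fun i => if i ∈ X then Z i else Y i, fun i p j p' ne => ?_, fun i p => ?_⟩
    · have x : ∀ i ∈ X, ∀ j ∈ A, j ∉ X → Disjoint (Z i) (Y j) := fun i p j p' q =>
        (Set.disjoint_iUnion₂_right.2 (h i p)).mono_right (v j (mem_sdiff.2 ⟨p', q⟩)).1.sub
      simp only [Function.onFun]
      split_ifs with y z z
      exacts [d y z ne, x i y j p' z, (x j z i p y).symm, u (by simpa [y] using p) (by simpa [z] using p') ne]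
    · beta_reduce
      split_ifs with y
      · exact g i y
      · exact (v i (mem_sdiff.2 ⟨p, y⟩)).imp_left (·.mono fun j p => .inr ⟨b p, c j⟩)
  obtain ⟨R, hR, cR⟩ := exists_subset_card_eq (s := A) (n := r) hr.le
  obtain ⟨K', rfl⟩ := Nat.exists_eq_add_of_le' K1
  obtain ⟨G, g1, g2⟩ := grp (fun a => K' + if a ∈ R then 1 else 0) A s (by
    simp only [sum_add_distrib, sum_const, smul_eq_mul, sum_boole, filter_mem_eq_inter, inter_eq_right.2 hR, cR]
    simp only [Nat.cast_id]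
    nlinarith)
  by_cases hb : ∀ y ∈ A, ∃ x ∈ A, θ x ≤ ∑ j ∈ G y, ∫ z in I j, f x z
  · obtain ⟨X, a, b, φ, c, d, g⟩ := efm A ⟨_, h0⟩ _ hb
    have : ∀ x, ∃ Z, x ∈ X → Pc I (G (φ x)) (k x) Z ∧ t x ≤ ∫ z in Z, f x z := fun x => by
      by_cases p : x ∈ X
      · obtain ⟨u, v⟩ := g1 _ (d x p).1
        obtain ⟨Z, q⟩ := give (hf x) (f0 x) hI (hd.subset u) (hk x) K1 (by rw [v]; split_ifs <;> omega) (d x p).2
        exact ⟨Z, fun _ => q⟩
      · exact ⟨∅, fun q => (p q).elim⟩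
    choose Z hZ using this
    have gs : ∀ x ∈ X, G (φ x) ⊆ s := fun x p => (g1 _ (d x p).1).1
    have dj : (X : Set α).PairwiseDisjoint fun x => G (φ x) := fun x p y q ne =>
      g2 (d x p).1 (d y q).1 (mt (c p q) ne)
    have su : X.biUnion (fun x => G (φ x)) ⊆ s := biUnion_subset.2 gs
    have dz : ∀ x ∈ X, ∀ j ∈ s, j ∉ G (φ x) → Disjoint (Z x) (I j) := fun x p j q u =>
      (Set.disjoint_iUnion₂_left.2 fun i v => hd (gs x p v) q (by rintro rfl; exact u v)).mono_left (hZ x p).1.sub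
    have c1 : #(X.filter (φ · ∈ R)) ≤ r := cR ▸ card_le_card_of_injOn φ (by simp +contextual [Set.MapsTo])
      (c.mono (by simp [Set.subset_def]; tauto))
    have c2 : #(X.filter (φ · ∉ R)) ≤ #(A \ R) := card_le_card_of_injOn φ
      (fun x p => by simp at p ⊢; exact ⟨(d x p.1).1, p.2⟩) (c.mono (by simp [Set.subset_def]; tauto))
    refine fin X a b Z (s \ X.biUnion fun x => G (φ x)) I #(X.filter (φ · ∈ R)) hI sdiff_subset (fun _ => subset_rfl)
      (fun x p y q ne => ?_) (fun x p => (hZ x p).imp_left (·.mono fun j q => .inr ⟨gs x p q, subset_rfl⟩))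
      (fun x p j q => dz x p j (mem_sdiff.1 q).1 fun u => (mem_sdiff.1 q).2 (mem_biUnion.2 ⟨x, p, u⟩)) ?_ c1 ?_
      fun i p => ?_
    · exact (Set.disjoint_iUnion₂_right.2 fun j u => dz x p j (gs y q u) (disjoint_right.1 (dj p q ne) u)).mono_right
        (hZ y q).1.sub
    · have := card_sdiff_add_card_eq_card su
      rw [card_biUnion dj, sum_congr rfl fun x p => (g1 _ (d x p).1).2] at this
      simp only [sum_add_distrib, sum_const, smul_eq_mul, sum_boole, Nat.cast_id] at this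
      linarith
    · have := card_filter_add_card_filter_not (s := X) (φ · ∈ R)
      have := card_sdiff_add_card_eq_card hR
      omega
    · rw [← sum_sdiff su, sum_biUnion dj]
      have := sum_le_card_nsmul X _ _ fun x q => (not_le.1 (g i p x q)).le
      rw [nsmul_eq_mul] at this
      linarith
  push Not at hb
  obtain ⟨y, hy, hb⟩ := hb
  obtain ⟨B, b1, b2⟩ := exists_subset_card_eq (s := G y) (n := K') (by rw [(g1 y hy).2]; omega)
  let P : Finset ι → Prop := fun B => ∀ x ∈ A, ∑ j ∈ B, ∫ z in I j, f x z < θ x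
  have hP : ∀ B C, B ⊆ C → P C → P B := fun B C h p x q =>
    (sum_le_sum_of_subset_of_nonneg h fun _ _ _ => w0 _ _).trans_lt (p x q)
  obtain ⟨T, t1, t2, t3⟩ := best (fun j => ∫ z in I j, f i0 z) (fun _ => w0 _ _) (K' + 1) (#A * (K' + 1) + r)
    (by nlinarith) s (by omega)
  obtain ⟨B, b1, b2, b3, j, j1, j2, j3⟩ := thr P hP (b1.trans (g1 y hy).1) (congrArg (· + 1) b2) (hP _ _ b1 hb) t1 t2 fun h => by
    have p := h i0 h0
    have q := (H i0 h0).2
    have k1 : (1 : ℝ) ≤ k i0 := by exact_mod_cast hk i0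
    have : k i0 * θ i0 = t i0 * (K' + 1 : ℕ) := by simp only [θ, min_eq_left kK]; field_simp
    rw [show (#s + #A - 1 : ℝ) = (#A * (K' + 1) + r : ℕ) by rw [sub_eq_iff_eq_add]; exact_mod_cast e] at q
    have N0 : (0 : ℝ) < (#A * (K' + 1) + r : ℕ) := by positivity
    generalize ((#A * (K' + 1) + r : ℕ) : ℝ) = N at *
    nlinarith [mul_lt_mul_of_pos_left p (mul_pos N0 (zero_lt_one.trans_le k1)), congrArg (N * ·) this,
      mul_le_mul_of_nonneg_left t3 (zero_le_one.trans k1), mul_le_mul_of_nonneg_left q (Nat.cast_nonneg (K' + 1) : (0 : ℝ) ≤ _)]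
  obtain ⟨u, w, uw, ej⟩ := hI j
  let F : α → ℝ → ℝ := fun i x => (∑ j ∈ B, ∫ z in I j, f i z) + (∫ z in Set.Ioc u x, f i z) - θ i
  obtain ⟨x, xm, hx⟩ : ∃ x ∈ Set.Icc u w, A.sup' ⟨_, h0⟩ (F · x) = 0 :=
    intermediate_value_Icc uw (ContinuousOn.finset_sup'_apply _ fun i _ =>
      (continuousOn_const.add (intervalIntegral.continuousOn_primitive (hf i).integrableOn)).sub continuousOn_const)
      ⟨sup'_le _ _ fun i p => by simpa [F, θ] using (b3 i p).le, by
        simp only [P, not_forall, not_lt, sum_insert j2, ej] at j3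
        obtain ⟨i, p, q⟩ := j3
        exact le_sup'_of_le _ p (show 0 ≤ F i w by simp only [F]; linarith)⟩
  obtain ⟨i, p, q⟩ := exists_mem_eq_sup' ⟨_, h0⟩ (F · x)
  have iv : ∀ a b, a ≤ b → Iv (Function.update I j (.Ioc a b)) := fun a b h l => by
    by_cases c : l = j
    · exact ⟨a, b, h, by simp [c]⟩
    · simpa [c] using hI l
  have sb : ∀ J ⊆ I j, ∀ l, Function.update I j J l ⊆ I l := fun J h l => by
    by_cases c : l = j <;> simp [c, h]
  have s1 : Set.Ioc u x ⊆ I j := ej ▸ Set.Ioc_subset_Ioc_right xm.2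
  have s2 : Set.Ioc x w ⊆ I j := ej ▸ Set.Ioc_subset_Ioc_left xm.1
  have ib := insert_subset j1 b1
  have sB : ∀ J i, ∑ l ∈ B, ∫ z in Function.update I j J l, f i z = ∑ l ∈ B, ∫ z in I l, f i z := fun J i =>
    sum_congr rfl fun l c => by rw [Function.update_of_ne (by rintro rfl; exact j2 c)]
  obtain ⟨Z, z1, z2⟩ := give (hf i) (f0 i) (iv u x xm.1) (D := insert j B)
    (fun a p b q h => (hd (ib p) (ib q) h).mono (sb _ s1 a) (sb _ s1 b)) (hk i) K1 (t := t i)
    (by rw [card_insert_of_notMem j2, b2]) (by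
      rw [sum_insert j2, sB, Function.update_self]
      simp only [hx, F] at q
      change θ i ≤ _
      linarith)
  refine fin {i} (by simpa) (by simp) (fun _ => Z) (s \ B) _ 0 (iv x w xm.2) sdiff_subset (sb _ s2) (by simp)
    (by simpa using ⟨z1.mono fun l c => .inr ⟨ib c, sb _ s1 l⟩, z2⟩) (fun _ _ l c => ?_) ?_ (by simp) (by simp; omega)
    fun i c => ?_
  · refine (Set.disjoint_iUnion₂_left.2 fun a v => ?_).mono_left z1.sub
    by_cases h : a = l
    · obtain rfl : a = j := by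
        simpa [show a ∉ B from h ▸ (mem_sdiff.1 c).2] using v
      subst h
      simp
    · exact (hd (ib v) (mem_sdiff.1 c).1 h).mono (sb _ s1 a) (sb _ s2 l)
  · have := card_sdiff_add_card_eq_card b1
    simp
    omega
  · have m : j ∈ s \ B := mem_sdiff.2 ⟨j1, j2⟩
    have v := le_sup' (F · x) (mem_sdiff.1 c).1
    rw [← sum_sdiff b1, ← add_sum_erase _ _ m, ← add_sum_erase _ _ m, Function.update_self, ej,
      ← Set.Ioc_union_Ioc_eq_Ioc xm.1 xm.2, setIntegral_union (by simp) measurableSet_Ioc (hf i).integrableOn (hf i).integrableOn,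
      sum_congr (g := fun l => ∫ z in I l, f i z) (s₂ := (s \ B).erase j) (f := fun l => ∫ z in Function.update I j _ l, f i z) rfl
        fun l c => by rw [Function.update_of_ne (mem_erase.1 c).1]]
    simp only [hx, F] at v
    simp
    linarith

lemma core [Infinite ι] (A : Finset α) : ∀ (s : Finset ι) (I : ι → Set ℝ), Ok f k t A s I := by
  classical
  induction A using Finset.strongInduction with | H A ih => ?_
  intro s I
  rcases A.eq_empty_or_nonempty with rfl | hA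
  · exact fun _ _ _ => ⟨fun _ => ∅, by simp, by simp⟩
  obtain ⟨i0, h0, m⟩ := A.exists_min_image k hA
  rcases le_or_gt (#A * k i0 + 1) (#s + #A) with h | h
  · exact step hf f0 hk ht ih s I h0 h
  intro hI hd H
  obtain ⟨s', a, b⟩ := Infinite.exists_superset_card_eq s (#A * k i0 + 1 - #A) (by omega)
  obtain ⟨Z, u, v⟩ := step hf f0 hk ht ih s' (fun j => if j ∈ s then I j else ∅) h0 (by omega)
    (fun j => by beta_reduce; split_ifs; exacts [hI j, ⟨0, 0, le_rfl, by simp⟩])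
    (fun i _ j _ h => by
      simp only [Function.onFun]
      split_ifs with p q
      exacts [hd p q h, by simp, by simp, by simp]) fun i p => by
      have e : ∑ j ∈ s', ∫ x in (if j ∈ s then I j else ∅), f i x = ∑ j ∈ s, ∫ x in I j, f i x := by
        rw [← sum_subset a fun j _ q => by simp [q]]
        exact sum_congr rfl fun j q => by rw [if_pos q]
      rw [e, show (#s' + #A - 1 : ℝ) = #A * k i0 by rw [sub_eq_iff_eq_add]; exact_mod_cast (by omega)]
      have := (H i p).1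
      have V : 0 ≤ ∑ j ∈ s, ∫ x in I j, f i x := sum_nonneg fun _ _ => integral_nonneg (f0 i)
      exact ⟨this, by nlinarith [mul_le_mul_of_nonneg_left this (Nat.cast_nonneg (k i0) : (0 : ℝ) ≤ _),
        mul_le_mul_of_nonneg_right (show (k i0 : ℝ) ≤ k i by exact_mod_cast m i p) V]⟩
  exact ⟨Z, u, fun i p => (v i p).imp_left (·.mono fun j _ => by split_ifs with q <;> simp [q])⟩
end

theorem result (m n : ℕ) (hm : 1 ≤ m) (hn : 1 ≤ n) (c : Fin m → ℝ)
    (hc : Pairwise fun i j => Disjoint (Set.Icc (c i) (c i + 1)) (Set.Icc (c j) (c j + 1)))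
    (k : Fin n → ℕ) (hk : ∀ i, 1 ≤ k i) (v : Fin n → ℝ → ℝ)
    (v0 : ∀ i, ∀ x ∈ ⋃ j, Set.Icc (c j) (c j + 1), 0 ≤ v i x)
    (hv : ∀ i, IntegrableOn (v i) (⋃ j, Set.Icc (c j) (c j + 1))) :
    ∃ Z : Fin n → Set ℝ, (Pairwise fun i j => Disjoint (Z i) (Z j)) ∧ ∀ i,
      (∃ S : Finset (Set ℝ), S.card ≤ k i ∧
        (∀ J ∈ S, J.OrdConnected ∧ ∃ j, J ⊆ Set.Icc (c j) (c j + 1)) ∧ Z i = ⋃ J ∈ S, J) ∧
      min (1 / n : ℝ) (k i / (m + n - 1)) * ∫ x in ⋃ j, Set.Icc (c j) (c j + 1), v i x ≤ ∫ x in Z i, v i x := by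
  classical
  set C := ⋃ j, Set.Icc (c j) (c j + 1) with hC
  have mC : MeasurableSet C := .iUnion fun _ => measurableSet_Icc
  have e : ∀ i (Z : Set ℝ), MeasurableSet Z → Z ⊆ C → ∫ x in Z, C.indicator (v i) x = ∫ x in Z, v i x :=
    fun i Z p q => setIntegral_congr_fun p fun x r => Set.indicator_of_mem (q r) _
  have V : ∀ i, 0 ≤ ∫ x in C, v i x := fun i => setIntegral_nonneg mC (v0 i)
  have n1 : (1 : ℝ) ≤ n := by exact_mod_cast hn
  have m1 : (1 : ℝ) ≤ m := by exact_mod_cast hm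
  have N : (0 : ℝ) < m + n - 1 := by linarith
  obtain ⟨Z, a, b⟩ := core (ι := Fin m ⊕ ℕ) (f := fun i => C.indicator (v i))
    (fun i => (integrable_indicator_iff mC).2 (hv i)) (fun i => Set.indicator_nonneg (v0 i)) hk
    (t := fun i => min (1 / n : ℝ) (k i / (m + n - 1)) * ∫ x in C, v i x) (fun i => mul_nonneg (by positivity) (V i))
    univ (univ.map .inl) (Sum.elim (fun j => .Ioc (c j) (c j + 1)) fun _ => ∅)
    (by rintro (j | j); exacts [⟨_, _, by simp, rfl⟩, ⟨0, 0, le_rfl, by simp⟩])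
    (by
      rintro (i | i) - (j | j) - h <;> simp only [Function.onFun, Sum.elim_inl, Sum.elim_inr, Set.empty_disjoint, Set.disjoint_empty]
      exact (hc (by simpa using h)).mono Set.Ioc_subset_Icc_self Set.Ioc_subset_Icc_self) fun i _ => by
      have : ∑ j, ∫ x in Set.Ioc (c j) (c j + 1), C.indicator (v i) x = ∫ x in C, v i x := by
        rw [hC, integral_iUnion_fintype (fun _ => measurableSet_Icc) hc fun j => (hv i).mono_set (Set.subset_iUnion (fun j => Set.Icc (c j) (c j + 1)) j)]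
        exact sum_congr rfl fun j _ => by
          rw [← integral_Icc_eq_integral_Ioc, e i _ measurableSet_Icc (Set.subset_iUnion (fun j => Set.Icc (c j) (c j + 1)) j)]
      simp only [sum_map, Function.Embedding.inl_apply, Sum.elim_inl, this, card_map, card_univ, Fintype.card_fin, ← mul_assoc]
      constructor
      · exact mul_le_of_le_one_left (V i) (by rw [← le_div_iff₀' (by positivity)]; exact min_le_left _ _)
      · exact mul_le_mul_of_nonneg_right (by rw [← le_div_iff₀' N]; exact min_le_right _ _) (V i)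
  refine ⟨Z, fun i j h => a (by simp) (by simp) h, fun i => ?_⟩
  obtain ⟨⟨S, p, q, r⟩, u⟩ := b i (mem_univ i)
  have w : ∀ J ∈ S, J.OrdConnected ∧ ∃ j, J ⊆ Set.Icc (c j) (c j + 1) := fun J h => ⟨(q J h).1, by
    obtain rfl | ⟨j, x, y⟩ := (q J h).2
    · exact ⟨⟨0, hm⟩, Set.empty_subset _⟩
    · obtain ⟨j, -, rfl⟩ := mem_map.1 x
      exact ⟨j, y.trans Set.Ioc_subset_Icc_self⟩⟩
  refine ⟨⟨S, p, w, r⟩, u.trans_eq (e i _ ?_ ?_)⟩ <;> rw [r]
  · exact S.measurableSet_biUnion fun J h => (w J h).1.measurableSet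
  · exact Set.iUnion₂_subset fun J h => let ⟨j, x⟩ := (w J h).2; Set.subset_iUnion_of_subset j x

end Pool.Agent.Results.MP_a8acf3_co.Personal
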